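import Mathlib
import Pool.Agent.helper22.PlanarRecolour

set_option autoImplicit false

/-!
# Linear recolouring distance for `k`-colourings of planar graphs, `k ≥ 8`

For every `k ≥ 8`, any two proper `k`-colourings of a planar graph on `n` vertices are at distance
at most `k (k - 1)² n` in the recolouring graph.
-/

namespace Pool.Agent.Results.MP_c468e8_co.LinearRecolouring

/-- `G` is planar: it can be drawn in the plane `ℂ` with distinct points as vertices and with arcs
as edges, where an arc contains no vertex except its two ends and the interiors of the arcs of two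
different edges are disjoint. -/
def IsPlanar {V : Type} (G : SimpleGraph V) : Prop :=
  ∃ f : V → ℂ, Function.Injective f ∧ ∃ γ : V → V → unitInterval → ℂ,
    (∀ u v : V, G.Adj u v →
      Continuous (γ u v) ∧ Function.Injective (γ u v) ∧ γ u v 0 = f u ∧ γ u v 1 = f v) ∧
    (∀ (u v w : V) (t : unitInterval), G.Adj u v → t ≠ 0 → t ≠ 1 → γ u v t ≠ f w) ∧
    (∀ (u v x y : V) (a b : unitInterval), G.Adj u v → G.Adj x y → s(u, v) ≠ s(x, y) →
      a ≠ 0 → a ≠ 1 → b ≠ 0 → b ≠ 1 → γ u v a ≠ γ x y b)

/-- The recolouring graph: its vertices are the proper `k`-colourings of `G`, and two of them are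
adjacent when they differ at exactly one vertex of `G`. -/
def recolouringGraph {V : Type} (G : SimpleGraph V) (k : ℕ) : SimpleGraph (G.Coloring (Fin k)) where
  Adj c d := ∃ w : V, c w ≠ d w ∧ ∀ v : V, v ≠ w → c v = d v
  symm := ⟨fun _ _ ⟨w, h, h'⟩ => ⟨w, h.symm, fun v hv => (h' v hv).symm⟩⟩
  loopless := ⟨fun _ ⟨_, h, _⟩ => h rfl⟩

/-- For every `k ≥ 8`, any two proper `k`-colourings of a planar graph `G` on `n` vertices are at
distance at most `k (k - 1)² n` in the recolouring graph. -/
theorem result : ∀ k : ℕ, 8 ≤ k → ∀ (V : Type) [Fintype V] (G : SimpleGraph V), IsPlanar G →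
    ∀ c d : G.Coloring (Fin k),
      (recolouringGraph G k).edist c d ≤ (k * (k - 1) ^ 2 * Fintype.card V : ℕ) := by
  intro k hk V _ G ⟨f, hf, γ, h1, h2, h3⟩ c d
  obtain ⟨r, rfl⟩ : ∃ r, k = r + 1 := ⟨k - 1, by omega⟩
  have hD : Pool.Agent.helper22.PlanarRec.Drawn G := by
    refine ⟨f, hf, γ, fun u v huv => ?_, h2, fun u v x y a b huv hxy hux huy _ _ => ?_⟩
    · obtain ⟨a, _, b, c⟩ := h1 u v huv
      exact ⟨a, b, c⟩
    · refine h3 u v x y a b huv hxy (fun hs => ?_)
      rw [Sym2.eq_iff] at hs
      rcases hs with ⟨h, -⟩ | ⟨h, -⟩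
      · exact hux h
      · exact huy h
  obtain ⟨m, hm, seq, h0, hm', hp, hs⟩ := Pool.Agent.helper22.PlanarRec.recolour (by omega) G hD
    (fun v => c v) (fun v => d v) (fun u v huv => c.valid huv) (fun u v huv => d.valid huv)
  have key : ∀ i ≤ m, ∀ e : G.Coloring (Fin (r + 1)), (∀ v, e v = seq i v) →
      (recolouringGraph G (r + 1)).edist c e ≤ (i : ℕ∞) := by
    intro i
    induction i with
    | zero =>
      intro _ e he
      have : c = e := by
        apply DFunLike.ext
        intro v
        rw [he v, h0]
      rw [this, SimpleGraph.edist_self]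
      exact zero_le
    | succ i ih =>
      intro hi e he
      let e' : G.Coloring (Fin (r + 1)) :=
        SimpleGraph.Coloring.mk (seq i) (fun {u v} huv => hp i (by omega) u v huv)
      have h4 := ih (by omega) e' (fun v => rfl)
      obtain ⟨w, hw⟩ := hs i (by omega)
      by_cases hee : e' = e
      · rw [← hee]
        refine h4.trans ?_
        exact_mod_cast Nat.le_succ i
      · have hadj : (recolouringGraph G (r + 1)).Adj e' e := by
          refine ⟨w, fun hcon => hee ?_, fun v hv => ?_⟩
          · apply DFunLike.ext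
            intro v
            by_cases hv : v = w
            · rw [hv]; exact hcon
            · rw [he v, hw v hv]
              rfl
          · rw [he v, hw v hv]
            rfl
        have h5 : (recolouringGraph G (r + 1)).edist e' e ≤ 1 := by
          have := hadj.toWalk.edist_le
          simpa using this
        calc (recolouringGraph G (r + 1)).edist c e
            ≤ (recolouringGraph G (r + 1)).edist c e' + (recolouringGraph G (r + 1)).edist e' e :=
              SimpleGraph.edist_triangle
          _ ≤ (i : ℕ∞) + 1 := add_le_add h4 h5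
          _ = ((i + 1 : ℕ) : ℕ∞) := by push_cast; rfl
  refine (key m le_rfl d (fun v => by rw [hm'])).trans ?_
  have h6 : m ≤ (r + 1) * (r + 1 - 1) ^ 2 * Fintype.card V := by
    refine hm.trans (le_of_eq ?_)
    rw [Nat.add_sub_cancel]
    ring
  exact_mod_cast h6

end Pool.Agent.Results.MP_c468e8_co.LinearRecolouring
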